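import Mathlib

/-!
# Operators on `ℓ₁(T)` given by a bounded family of vectors
-/

set_option autoImplicit false

open Set Topology Filter

namespace Pool.Agent.H110.MB

/-- `ℓ₁(T)` -/
abbrev L1 (T : Type) := lp (fun _ : T => ℝ) 1

variable {T : Type}

open scoped Classical in
/-- the unit vectors of `ℓ₁(T)` -/
noncomputable def e (s : T) : L1 T := lp.single 1 s (1 : ℝ)

theorem norm_e (s : T) : ‖e s‖ = 1 := by
  classical
  rw [e, lp.norm_single (by norm_num)]
  simp

theorem e_self (s : T) : (e s : T → ℝ) s = 1 := by
  classical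
  rw [e, lp.single_apply_self]

theorem e_ne {s t : T} (h : t ≠ s) : (e s : T → ℝ) t = 0 := by
  classical
  rw [e, lp.single_apply_ne (hij := h)]

theorem hasSum_abs (x : L1 T) : HasSum (fun s => |x s|) ‖x‖ := by
  have h := lp.hasSum_norm (p := 1) (by simp) x
  simpa using h

theorem hasSum_e (x : L1 T) : HasSum (fun s => x s • e s) x := by
  classical
  have h1 := lp.hasSum_single (p := 1) (E := fun _ : T => ℝ) (by simp) x
  convert! h1 using 2 with s
  rw [e, ← lp.single_smul]
  congr 1
  simp

theorem countable_supp (x : L1 T) : {s | x s ≠ 0}.Countable := by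
  have h := (hasSum_abs x).summable.countable_support
  refine h.mono ?_
  intro s hs
  simpa [Function.mem_support] using hs

section op

variable {Y : Type} [NormedAddCommGroup Y] [NormedSpace ℝ Y] [CompleteSpace Y]

theorem hasSum_map (L : L1 T →L[ℝ] Y) (x : L1 T) : HasSum (fun s => x s • L (e s)) (L x) := by
  have h := L.hasSum (hasSum_e x)
  convert! h using 2 with s
  rw [map_smul]

theorem ext_e {L M : L1 T →L[ℝ] Y} (h : ∀ s, L (e s) = M (e s)) : L = M := by
  ext x
  have h1 := hasSum_map L x
  have h2 := hasSum_map M x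
  simp only [h] at h1
  exact h1.unique h2

theorem summable_smul {v : T → Y} (hv : ∀ s, ‖v s‖ ≤ 1) (x : L1 T) :
    Summable fun s => x s • v s := by
  refine Summable.of_norm_bounded (hasSum_abs x).summable fun s => ?_
  rw [norm_smul, Real.norm_eq_abs]
  exact mul_le_of_le_one_right (abs_nonneg _) (hv s)

/-- the operator on `ℓ₁(T)` with given values on the unit vectors -/
noncomputable def op (v : T → Y) (hv : ∀ s, ‖v s‖ ≤ 1) : L1 T →L[ℝ] Y :=
  LinearMap.mkContinuous
    { toFun := fun x => ∑' s, x s • v s
      map_add' := fun x y => by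
        rw [← (summable_smul hv x).tsum_add (summable_smul hv y)]
        congr 1
        funext s
        rw [← add_smul]
        rfl
      map_smul' := fun a x => by
        rw [RingHom.id_apply, ← (summable_smul hv x).tsum_const_smul]
        congr 1
        funext s
        rw [smul_smul]
        rfl } 1 (by
    intro x
    change ‖∑' s, x s • v s‖ ≤ 1 * ‖x‖
    rw [one_mul]
    refine tsum_of_norm_bounded (hasSum_abs x) fun s => ?_
    rw [norm_smul, Real.norm_eq_abs]
    exact mul_le_of_le_one_right (abs_nonneg _) (hv s))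

theorem op_apply (v : T → Y) (hv : ∀ s, ‖v s‖ ≤ 1) (x : L1 T) : op v hv x = ∑' s, x s • v s := rfl

theorem op_e (v : T → Y) (hv : ∀ s, ‖v s‖ ≤ 1) (s : T) : op v hv (e s) = v s := by
  rw [op_apply, tsum_eq_single s]
  · rw [e_self, one_smul]
  · intro t ht
    rw [e_ne ht, zero_smul]

theorem norm_op (v : T → Y) (hv : ∀ s, ‖v s‖ ≤ 1) : ‖op v hv‖ ≤ 1 :=
  LinearMap.mkContinuous_norm_le _ zero_le_one _

end op

/-- the coordinate functional -/
noncomputable def coord (t : T) : L1 T →L[ℝ] ℝ := by
  classical
  exact op (fun s => if s = t then (1 : ℝ) else 0) (fun s => by split_ifs <;> simp)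

theorem coord_apply (t : T) (x : L1 T) : coord t x = x t := by
  classical
  rw [coord, op_apply, tsum_eq_single t]
  · simp
  · intro s hs
    simp [hs]

end Pool.Agent.H110.MB
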