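import Pool.Agent.H110.MB.Defs

/-!
# General facts on projectional skeletons
-/

set_option autoImplicit false

open Set Topology Filter

namespace Pool.Agent.H110.MB

variable {X : Type} [NormedAddCommGroup X] [NormedSpace ℝ X]
variable {Γ : Type} [PartialOrder Γ] {P : Γ → X →L[ℝ] X}

theorem IsSkeleton.ub (hP : IsSkeleton P) {C : Set Γ} (hC : C.Countable) : ∃ t, ∀ s ∈ C, s ≤ t := by
  classical
  rcases C.eq_empty_or_nonempty with rfl | hne
  · exact ⟨Classical.choice hP.nonempty, fun s hs => hs.elim⟩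
  obtain ⟨c, rfl⟩ := hC.exists_eq_range hne
  choose u hu1 hu2 using hP.directed
  let f : ℕ → Γ := fun n => Nat.rec (c 0) (fun n x => u x (c (n + 1))) n
  have hf : ∀ n, f (n + 1) = u (f n) (c (n + 1)) := fun n => rfl
  have hmono : Monotone f := monotone_nat_of_le_succ fun n => by rw [hf]; exact hu1 _ _
  obtain ⟨t, ht⟩ := hP.exists_sup f hmono
  refine ⟨t, ?_⟩
  rintro _ ⟨n, rfl⟩
  have h1 : c n ≤ f n := by
    cases n with
    | zero => exact le_refl _
    | succ n => rw [hf]; exact hu2 _ _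
  exact h1.trans (ht.1 ⟨n, rfl⟩)

/-- a minimal system in a separable set is countable -/
theorem countable_minimal {Λ : Type} {x : Λ → X} {xs : Λ → X →L[ℝ] ℝ}
    (h : IsMarkushevichBasis x xs) {Z : Set X} (hZ : TopologicalSpace.IsSeparable Z) :
    {α | x α ∈ Z}.Countable := by
  classical
  obtain ⟨c, hc, hcl⟩ := hZ
  have key : ∀ α : {α | x α ∈ Z}, ∃ z : c, ‖x α - z‖ * (‖xs α‖ + 1) < 1 / 2 := by
    rintro ⟨α, hα⟩
    have h1 : x α ∈ closure c := hcl hα
    have h2 : (0 : ℝ) < 1 / (2 * (‖xs α‖ + 1)) := by positivity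
    obtain ⟨z, hz, hd⟩ := Metric.mem_closure_iff.1 h1 _ h2
    refine ⟨⟨z, hz⟩, ?_⟩
    rw [dist_eq_norm] at hd
    have h3 : (0 : ℝ) < ‖xs α‖ + 1 := by positivity
    have h4 := mul_lt_mul_of_pos_right hd h3
    have h5 : 1 / (2 * (‖xs α‖ + 1)) * (‖xs α‖ + 1) = 1 / 2 := by field_simp
    rw [h5] at h4
    exact h4
  choose F hF using key
  have : Countable c := hc.to_subtype
  have hinj : Function.Injective F := by
    intro α β hab
    by_contra hne
    have hne' : (α : Λ) ≠ β := fun h => hne (Subtype.ext h)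
    -- by symmetry
    have main : ∀ α β : {α | x α ∈ Z}, F α = F β → (α : Λ) ≠ β → ‖xs α‖ ≤ ‖xs β‖ → False := by
      intro α β hab hne hle
      have h1 := hF α
      have h2 := hF β
      rw [← hab] at h2
      have h3 : xs α (x α - x β) = 1 := by
        rw [map_sub, h.biorth_self, h.biorth_ne _ _ hne, sub_zero]
      have h4 : x α - x β = (x α - (F α : X)) - (x β - (F α : X)) := by abel
      have h5 : (1 : ℝ) ≤ ‖xs α‖ * ‖x α - x β‖ := by
        have := (xs α).le_opNorm (x α - x β)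
        rw [h3] at this
        simpa using this
      have h6 : ‖x α - x β‖ ≤ ‖x α - (F α : X)‖ + ‖x β - (F α : X)‖ := by
        rw [h4]; exact norm_sub_le _ _
      have h7 : ‖xs α‖ * ‖x α - (F α : X)‖ ≤ ‖x α - (F α : X)‖ * (‖xs α‖ + 1) := by
        nlinarith [norm_nonneg (x α - (F α : X)), norm_nonneg (xs α)]
      have h8 : ‖xs α‖ * ‖x β - (F α : X)‖ ≤ ‖x β - (F α : X)‖ * (‖xs β‖ + 1) := by
        nlinarith [norm_nonneg (x β - (F α : X)), norm_nonneg (xs α)]
      have h9 : ‖xs α‖ * ‖x α - x β‖ ≤ ‖xs α‖ * (‖x α - (F α : X)‖ + ‖x β - (F α : X)‖) :=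
        mul_le_mul_of_nonneg_left h6 (norm_nonneg _)
      rw [mul_add] at h9
      linarith
    rcases le_total ‖xs α‖ ‖xs β‖ with hle | hle
    · exact main α β hab hne' hle
    · exact main β α hab.symm hne'.symm hle
  exact Set.countable_coe_iff.1 hinj.countable

/-- the set `{x_α} ∪ {0}` -/
def hset {Λ : Type} (x : Λ → X) : Set X := insert 0 (range x)

theorem countable_hset {Λ : Type} {x : Λ → X} {xs : Λ → X →L[ℝ] ℝ}
    (h : IsMarkushevichBasis x xs) {Z : Set X} (hZ : TopologicalSpace.IsSeparable Z) :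
    (hset x ∩ Z).Countable := by
  have h1 : hset x ∩ Z ⊆ insert 0 (x '' {α | x α ∈ Z}) := by
    rintro z ⟨hz | ⟨α, rfl⟩, hz2⟩
    · exact Or.inl hz
    · exact Or.inr ⟨α, hz2, rfl⟩
  exact (((countable_minimal h hZ).image x).insert 0).mono h1

/-- if `H` is invariant under `P_t`, then the functionals induced by `P_t` have countable range on `H` -/
theorem countable_of_invariant (hP : IsSkeleton P) {Λ : Type} {x : Λ → X}
    {xs : Λ → X →L[ℝ] ℝ} (h : IsMarkushevichBasis x xs) {t : Γ} (ht : P t '' hset x ⊆ hset x)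
    {f : X →L[ℝ] ℝ} (hf : ∀ z, f (P t z) = f z) : (f '' hset x).Countable := by
  have h1 : f '' hset x ⊆ f '' (hset x ∩ range (P t)) := by
    rintro _ ⟨z, hz, rfl⟩
    exact ⟨P t z, ⟨ht ⟨z, hz, rfl⟩, ⟨z, rfl⟩⟩, hf z⟩
  exact ((countable_hset h (hP.separable t)).image f).mono h1

theorem mem_range_iff (hP : IsSkeleton P) (t : Γ) (z : X) : z ∈ range (P t) ↔ P t z = z := by
  constructor
  · rintro ⟨w, rfl⟩
    exact hP.proj t w
  · intro h
    exact ⟨z, h⟩

theorem induced_comp {s : Γ} (g : X →L[ℝ] ℝ) : g.comp (P s) ∈ induced P := ⟨s, g, rfl⟩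

theorem continuous_sigma {D : Set (X →L[ℝ] ℝ)} {f : X →L[ℝ] ℝ} (hf : f ∈ D) :
    Continuous[sigma D, inferInstance] (fun x => f x) := by
  have h1 : Continuous[sigma D, Pi.topologicalSpace] (fun x (f : D) => (f : X →L[ℝ] ℝ) x) :=
    continuous_induced_dom
  have h2 : Continuous fun p : D → ℝ => p ⟨f, hf⟩ := continuous_apply (⟨f, hf⟩ : D)
  exact @Continuous.comp X (D → ℝ) ℝ (sigma D) _ _ _ _ h2 h1

/-- the range of `P_t` is `σ(X, D)`-closed -/
theorem isClosed_range (hP : IsSkeleton P) (t : Γ) :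
    IsClosed[sigma (induced P)] (range (P t)) := by
  have h1 : range (P t) = ⋂ f ∈ induced P, {z | f z = (f.comp (P t)) z} := by
    ext z
    simp only [mem_iInter, mem_ofPred_eq]
    constructor
    · rintro ⟨w, rfl⟩ f _
      rw [ContinuousLinearMap.comp_apply, hP.proj]
    · intro hz
      rw [mem_range_iff hP]
      obtain ⟨s, hs⟩ := hP.union (z - P t z)
      rw [mem_range_iff hP] at hs
      have h2 : ∀ g : X →L[ℝ] ℝ, g (P s (z - P t z)) = 0 := by
        intro g
        have := hz (g.comp (P s)) (induced_comp g)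
        simp only [ContinuousLinearMap.comp_apply] at this
        rw [map_sub, map_sub, this, sub_self]
      rw [hs] at h2
      have h3 : z - P t z = 0 := by
        by_contra hne
        obtain ⟨g, hg⟩ := SeparatingDual.exists_ne_zero (R := ℝ) hne
        exact hg (h2 g)
      rw [sub_eq_zero] at h3
      exact h3.symm
  rw [h1]
  let _ := sigma (induced P)
  refine isClosed_biInter fun f hf => ?_
  exact isClosed_eq (continuous_sigma hf) (continuous_sigma (induced_comp f))

end Pool.Agent.H110.MB
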