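import Pool.Agent.H110.MB.B2

/-!
# Closed sets and monotonically Sokolov sets
-/

set_option autoImplicit false

open Set Topology Filter

namespace Pool.Agent.H110.MB

variable {X : Type} [NormedAddCommGroup X] [NormedSpace ℝ X]
variable {Γ : Type} [PartialOrder Γ] {P : Γ → X →L[ℝ] X}

theorem range_mono (hP : IsSkeleton P) {s t : Γ} (hst : s ≤ t) : range (P s) ⊆ range (P t) := by
  rintro _ ⟨z, rfl⟩
  exact ⟨P s z, (hP.comm s t hst z).2⟩

theorem comp_mono (hP : IsSkeleton P) {s t : Γ} (hst : s ≤ t) {f : X →L[ℝ] ℝ}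
    (hf : f.comp (P s) = f) : f.comp (P t) = f := by
  ext z
  have h1 : ∀ w, f (P s w) = f w := fun w => by
    have := congrArg (fun g : X →L[ℝ] ℝ => g w) hf
    simpa using this
  rw [ContinuousLinearMap.comp_apply, ← h1 (P t z), (hP.comm s t hst z).1, h1]

theorem exists_index (hP : IsSkeleton P) {f : X →L[ℝ] ℝ} (hf : f ∈ induced P) :
    ∃ s, f.comp (P s) = f := by
  obtain ⟨s, g, rfl⟩ := hf
  refine ⟨s, ?_⟩
  ext z
  simp only [ContinuousLinearMap.comp_apply]
  rw [hP.proj]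

theorem exists_ub_set (hP : IsSkeleton P) {C : Set X} (hC : C.Countable) :
    ∃ t, C ⊆ range (P t) := by
  choose σ hσ using hP.union
  obtain ⟨t, ht⟩ := hP.ub (hC.image σ)
  exact ⟨t, fun z hz => range_mono hP (ht _ ⟨z, hz, rfl⟩) (hσ z)⟩

theorem countable_of_sokolov (hP : IsSkeleton P) {Λ : Type} {x : Λ → X}
    {xs : Λ → X →L[ℝ] ℝ} (h : IsMarkushevichBasis x xs)
    (hS : MonotonicallySokolov
      (TopologicalSpace.induced (Subtype.val : hset x → X) (sigma (induced P))))
    {f : X →L[ℝ] ℝ} (hf : f ∈ induced P) : (f '' hset x).Countable := by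
  classical
  obtain ⟨r, N, h1, -, -⟩ := hS
  let _ := sigma (induced P)
  let τ : TopologicalSpace (hset x) :=
    TopologicalSpace.induced (Subtype.val : hset x → X) (sigma (induced P))
  have hval : Continuous[τ, sigma (induced P)] (Subtype.val : hset x → X) := continuous_induced_dom
  have hfc : Continuous[τ, inferInstance] (fun z : hset x => f z) :=
    @Continuous.comp (hset x) X ℝ τ (sigma (induced P)) _ _ _ (continuous_sigma hf) hval
  let A : Set (Set (hset x)) :=
    range (fun p : ℚ => {z : hset x | (p : ℝ) ≤ f z}) ∪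
      range (fun p : ℚ => {z : hset x | f z ≤ (p : ℝ)})
  have hA : IsCtblClosed τ A := by
    refine ⟨(countable_range _).union (countable_range _), ?_⟩
    rintro F (⟨p, rfl⟩ | ⟨p, rfl⟩)
    · exact @isClosed_le ℝ (hset x) _ _ _ τ _ _ continuous_const hfc
    · exact @isClosed_le ℝ (hset x) _ _ _ τ _ _ hfc continuous_const
  obtain ⟨-, -, hN, hnet, hinv⟩ := h1 A hA
  have hfr : ∀ z, f (r A z) = f z := by
    intro z
    apply le_antisymm
    · refine le_of_forall_rat_lt_imp_le ?_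
      intro q hq
      by_contra hlt
      rw [not_le] at hlt
      obtain ⟨q', hq1, hq2⟩ := exists_rat_btwn hlt
      have h2 : r A z ∈ {z : hset x | f z ≤ (q' : ℝ)} :=
        hinv _ (Or.inr ⟨q', rfl⟩) ⟨z, hq1.le, rfl⟩
      have h3 : f (r A z) ≤ q' := h2
      linarith
    · refine le_of_forall_rat_lt_imp_le ?_
      intro q hq
      have h2 : r A z ∈ {z : hset x | (q : ℝ) ≤ f z} :=
        hinv _ (Or.inl ⟨q, rfl⟩) ⟨z, hq.le, rfl⟩
      exact h2
  have z0 : hset x := ⟨0, Or.inl rfl⟩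
  have hpick : ∃ pick : Set (hset x) → hset x, ∀ S : Set (hset x), (S ∩ range (r A)).Nonempty →
      pick S ∈ S := by
    refine ⟨fun S => if hS : (S ∩ range (r A)).Nonempty then hS.choose else z0, fun S hS => ?_⟩
    simp only [dif_pos hS]
    exact hS.choose_spec.1
  obtain ⟨pick, hpick⟩ := hpick
  obtain ⟨t, ht⟩ := exists_ub_set hP ((hN.image pick).image (Subtype.val : hset x → X))
  have hrange : ∀ z, (r A z : X) ∈ range (P t) := by
    intro z
    by_contra hz
    have hopen : IsOpen[τ] ((Subtype.val : hset x → X) ⁻¹' (range (P t))ᶜ) :=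
      @IsOpen.preimage (hset x) X τ (sigma (induced P)) _ hval _
        (@IsClosed.isOpen_compl X (sigma (induced P)) _ (isClosed_range hP t))
    obtain ⟨S, hS, hzS, hSU⟩ := hnet (r A z) ⟨z, rfl⟩ _ hopen hz
    have h2 := hpick S ⟨_, hzS, ⟨z, rfl⟩⟩
    exact hSU h2 (ht ⟨_, ⟨S, hS, rfl⟩, rfl⟩)
  have h2 : f '' hset x ⊆ f '' (hset x ∩ range (P t)) := by
    rintro _ ⟨z, hz, rfl⟩
    exact ⟨(r A ⟨z, hz⟩ : X), ⟨(r A ⟨z, hz⟩).2, hrange _⟩, hfr ⟨z, hz⟩⟩
  exact ((countable_hset h (hP.separable t)).image f).mono h2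

end Pool.Agent.H110.MB
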