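import Pool.Agent.H110.MB.B3

/-!
# A `σ(X, D)`-closed set is invariant under cofinally many projections
-/

set_option autoImplicit false

open Set Topology Filter

namespace Pool.Agent.H110.MB

variable {X : Type} [NormedAddCommGroup X] [NormedSpace ℝ X]
variable {Γ : Type} [PartialOrder Γ] {P : Γ → X →L[ℝ] X}

/-- `I` is a finite set of functionals in `D` of norm `≤ K` witnessing that `x'` is at distance
`≥ 1/(k+1)` from `F` -/
def Wit (P : Γ → X →L[ℝ] X) (F : Set X) (x' : X) (k K : ℕ) (I : Finset (X →L[ℝ] ℝ)) : Prop :=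
  (∀ f ∈ I, f ∈ induced P ∧ ‖f‖ ≤ K) ∧ ∀ z ∈ F, ∃ f ∈ I, 1 / ((k : ℝ) + 1) ≤ |f (z - x')|

theorem sigma_nhds {D : Set (X →L[ℝ] ℝ)} {F : Set X} (hF : IsClosed[sigma D] F) {y : X}
    (hy : y ∉ F) : ∃ (I : Finset (X →L[ℝ] ℝ)) (ε : ℝ), 0 < ε ∧ (∀ f ∈ I, f ∈ D) ∧
      ∀ z ∈ F, ∃ f ∈ I, ε ≤ |f (z - y)| := by
  classical
  have h1 : IsOpen[sigma D] Fᶜ := @IsClosed.isOpen_compl X (sigma D) F hF
  obtain ⟨V, hV, hVF⟩ := isOpen_induced_iff.1 h1
  have h2 : (fun f : D => (f : X →L[ℝ] ℝ) y) ∈ V := by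
    have : y ∈ Fᶜ := hy
    rw [← hVF] at this
    exact this
  obtain ⟨I, u, hu, hIV⟩ := isOpen_pi_iff.1 hV _ h2
  have h3 : ∀ f : D, ∃ ε : ℝ, 0 < ε ∧ (f ∈ I → ∀ a : ℝ, |a - (f : X →L[ℝ] ℝ) y| < ε → a ∈ u f) := by
    intro f
    by_cases hf : f ∈ I
    · obtain ⟨ε, hε, hb⟩ := Metric.isOpen_iff.1 (hu f hf).1 _ (hu f hf).2
      refine ⟨ε, hε, fun _ a ha => hb ?_⟩
      rw [Metric.mem_ball, Real.dist_eq]
      exact ha
    · exact ⟨1, one_pos, fun h => (hf h).elim⟩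
  choose ε hε hεu using h3
  have h4 : ∃ δ : ℝ, 0 < δ ∧ ∀ f ∈ I, δ ≤ ε f := by
    rcases I.eq_empty_or_nonempty with rfl | hne
    · exact ⟨1, one_pos, fun f hf => by simp at hf⟩
    · obtain ⟨f0, hf0, hmin⟩ := I.exists_min_image ε hne
      exact ⟨ε f0, hε f0, hmin⟩
  obtain ⟨δ, hδ, hδI⟩ := h4
  refine ⟨I.image Subtype.val, δ, hδ, ?_, ?_⟩
  · intro f hf
    obtain ⟨g, -, rfl⟩ := Finset.mem_image.1 hf
    exact g.2
  · intro z hz
    by_contra hcon
    push Not at hcon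
    have h5 : (fun f : D => (f : X →L[ℝ] ℝ) z) ∈ V := by
      apply hIV
      intro f hf
      have hf' : f ∈ I := hf
      apply hεu f hf'
      have := hcon (f : X →L[ℝ] ℝ) (Finset.mem_image.2 ⟨f, hf', rfl⟩)
      rw [map_sub] at this
      exact this.trans_le (hδI f hf')
    have h6 : z ∈ Fᶜ := by
      rw [← hVF]
      exact h5
    exact h6 hz

theorem exists_invariant (hP : IsSkeleton P) {F : Set X} (hF : IsClosed[sigma (induced P)] F)
    (s₀ : Γ) : ∃ t, s₀ ≤ t ∧ P t '' F ⊆ F := by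
  classical
  -- dense sets
  have hsep : ∀ s, ∃ c : Set X, c.Countable ∧ range (P s) ⊆ closure c := hP.separable
  choose c hc hcl using hsep
  -- witnesses
  have hw : ∀ (x' : X) (k K : ℕ), ∃ I : Finset (X →L[ℝ] ℝ), (∀ f ∈ I, f ∈ induced P) ∧
      ((∃ J, Wit P F x' k K J) → Wit P F x' k K I) := by
    intro x' k K
    by_cases h : ∃ J, Wit P F x' k K J
    · obtain ⟨J, hJ⟩ := h
      exact ⟨J, fun f hf => (hJ.1 f hf).1, fun _ => hJ⟩
    · exact ⟨∅, fun f hf => by simp at hf, fun h' => (h h').elim⟩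
  choose w hwD hwit using hw
  -- indices
  have hσ : ∀ f : X →L[ℝ] ℝ, ∃ s, f ∈ induced P → f.comp (P s) = f := by
    intro f
    by_cases hf : f ∈ induced P
    · obtain ⟨s, hs⟩ := exists_index hP hf
      exact ⟨s, fun _ => hs⟩
    · exact ⟨s₀, fun h => (hf h).elim⟩
  choose σ hσ using hσ
  -- the step
  have hstep : ∀ s, ∃ s', s ≤ s' ∧ ∀ x' ∈ c s, ∀ k K : ℕ, ∀ f ∈ w x' k K, σ f ≤ s' := by
    intro s
    have hcount : (insert s (⋃ x' ∈ c s, ⋃ k : ℕ, ⋃ K : ℕ, σ '' (w x' k K : Set (X →L[ℝ] ℝ)))).Countable := by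
      refine Set.Countable.insert _ ?_
      refine (hc s).biUnion fun x' _ => ?_
      refine countable_iUnion fun k => countable_iUnion fun K => ?_
      exact (Finset.countable_toSet _).image _
    obtain ⟨t, ht⟩ := hP.ub hcount
    refine ⟨t, ht _ (mem_insert _ _), fun x' hx' k K f hf => ht _ (Or.inr ?_)⟩
    simp only [mem_iUnion]
    exact ⟨x', hx', k, K, f, hf, rfl⟩
  choose nx hnx1 hnx2 using hstep
  let q : ℕ → Γ := fun n => Nat.rec s₀ (fun _ x => nx x) n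
  have hq : ∀ n, q (n + 1) = nx (q n) := fun n => rfl
  have hmono : Monotone q := monotone_nat_of_le_succ fun n => by rw [hq]; exact hnx1 _
  obtain ⟨t, ht⟩ := hP.exists_sup q hmono
  have hqt : ∀ n, q n ≤ t := fun n => ht.1 ⟨n, rfl⟩
  refine ⟨t, hqt 0, ?_⟩
  rintro _ ⟨x, hx, rfl⟩
  by_contra hy
  obtain ⟨I, ε, hε, hID, hI⟩ := sigma_nhds hF hy
  obtain ⟨K, hK⟩ : ∃ K : ℕ, ∀ f ∈ I, ‖f‖ ≤ K := by
    obtain ⟨K, hK⟩ := exists_nat_ge (∑ f ∈ I, ‖f‖)
    exact ⟨K, fun f hf => (Finset.single_le_sum (fun g _ => norm_nonneg g) hf).trans hK⟩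
  obtain ⟨k, hk⟩ : ∃ k : ℕ, 1 / ((k : ℝ) + 1) < ε / 2 := exists_nat_one_div_lt (by positivity)
  have hk0 : (0 : ℝ) < 1 / ((k : ℝ) + 1) := by positivity
  set δ : ℝ := (1 / ((k : ℝ) + 1)) / ((K : ℝ) + 1) with hδ
  have hδ0 : 0 < δ := by positivity
  have hKδ : ∀ v : X, ‖v‖ < δ → ∀ f : X →L[ℝ] ℝ, ‖f‖ ≤ K → |f v| < 1 / ((k : ℝ) + 1) := by
    intro v hv f hf
    have h1 : |f v| ≤ ‖f‖ * ‖v‖ := by
      have := f.le_opNorm v
      rwa [Real.norm_eq_abs] at this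
    have h2 : ‖f‖ * ‖v‖ ≤ K * ‖v‖ := mul_le_mul_of_nonneg_right hf (norm_nonneg _)
    have h3 : (K : ℝ) * ‖v‖ ≤ K * δ := mul_le_mul_of_nonneg_left hv.le (by positivity)
    have h4 : (K : ℝ) * δ < 1 / ((k : ℝ) + 1) := by
      have h5 : ((K : ℝ) + 1) * δ = 1 / ((k : ℝ) + 1) := by
        rw [hδ]; field_simp
      nlinarith
    linarith
  -- approximate
  have h1 : P t x ∈ closure (⋃ n, range (P (q n))) := by
    rw [← hP.sup q hmono t ht]
    exact ⟨x, rfl⟩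
  obtain ⟨y', hy', hd⟩ := Metric.mem_closure_iff.1 h1 (δ / 2) (by positivity)
  obtain ⟨n, hn⟩ := mem_iUnion.1 hy'
  obtain ⟨x', hx', hd'⟩ := Metric.mem_closure_iff.1 (hcl _ hn) (δ / 2) (by positivity)
  have hdist : ‖P t x - x'‖ < δ := by
    rw [← dist_eq_norm]
    have := dist_triangle (P t x) y' x'
    linarith
  have hwit0 : ∃ J, Wit P F x' k K J := by
    refine ⟨I, fun f hf => ⟨hID f hf, hK f hf⟩, fun z hz => ?_⟩
    obtain ⟨f, hf, hfz⟩ := hI z hz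
    refine ⟨f, hf, ?_⟩
    have h2 := hKδ _ hdist f (hK f hf)
    have h3 : f (z - x') = f (z - P t x) + f (P t x - x') := by
      rw [← map_add]
      congr 1
      abel
    have h4 : |f (z - P t x)| ≤ |f (z - x')| + |f (P t x - x')| := by
      rw [h3]
      have := abs_sub (f (z - P t x) + f (P t x - x')) (f (P t x - x'))
      rwa [add_sub_cancel_right] at this
    linarith
  have hW := hwit x' k K hwit0
  obtain ⟨f, hf, hfx⟩ := hW.2 x hx
  have h5 : f.comp (P t) = f := by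
    refine comp_mono hP ?_ (hσ f (hwD x' k K f hf))
    exact (hnx2 (q n) x' hx' k K f hf).trans (hqt (n + 1))
  have h6 : f (x - x') = f (P t x - x') := by
    have := congrArg (fun g : X →L[ℝ] ℝ => g x) h5
    simp only [ContinuousLinearMap.comp_apply] at this
    rw [map_sub, map_sub, this]
  rw [h6] at hfx
  exact absurd hfx (not_le.2 (hKδ _ hdist f (hW.1 f hf).2))

end Pool.Agent.H110.MB
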