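import Pool.Agent.H110.MB.B1
import Pool.Agent.H110.MB.B4

/-!
# The skeleton on `ℓ₁` of the tree `[0,1]^{≤ ω₁}`, twisted by the digits
-/

set_option autoImplicit false

open Set Topology Filter

namespace Pool.Agent.H110.MB

/-- the digits -/
abbrev Bt : Type := Set.Icc (0 : ℝ) 1

/-- the tree `Bt^{≤ W}`: sequences of length `i ∈ W`, and full sequences -/
abbrev Tr (W : Type) [LinearOrder W] : Type := (Σ i : W, (Set.Iio i → Bt)) ⊕ (W → Bt)

variable {W : Type} [LinearOrder W]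

/-- the node of level `i` on the branch `γ` -/
def node (γ : W → Bt) (i : W) : Tr W := Sum.inl ⟨i, fun j => γ j⟩

/-- the top node of the branch `γ` -/
def top (γ : W → Bt) : Tr W := Sum.inr γ

theorem node_ne_top {γ δ : W → Bt} {i : W} : node γ i ≠ top δ := by
  intro h
  cases h

theorem top_inj {γ δ : W → Bt} (h : top γ = top δ) : γ = δ := by
  cases h
  rfl

theorem mk_eq_node {i j : W} {g : Set.Iio i → Bt} {γ : W → Bt} :
    (Sum.inl ⟨i, g⟩ : Tr W) = node γ j ↔ i = j ∧ ∀ k : Set.Iio i, g k = γ k := by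
  constructor
  · intro h
    have h1 := Sum.inl.inj h
    have h2 : i = j := congrArg Sigma.fst h1
    subst h2
    have h3 := eq_of_heq (Sigma.mk.inj h1).2
    exact ⟨rfl, fun k => congrFun h3 k⟩
  · rintro ⟨rfl, h⟩
    have : g = fun k : Set.Iio i => γ k := funext h
    rw [this]
    rfl

theorem node_eq {γ δ : W → Bt} {i j : W} : node γ i = node δ j ↔ i = j ∧ ∀ k < i, γ k = δ k := by
  have h := mk_eq_node (i := i) (j := j) (g := fun k => γ k) (γ := δ)
  constructor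
  · intro h1
    obtain ⟨h2, h3⟩ := h.1 h1
    exact ⟨h2, fun k hk => h3 ⟨k, hk⟩⟩
  · rintro ⟨h2, h3⟩
    exact h.2 ⟨h2, fun k => h3 k k.2⟩

/-- a set of nodes containing all common nodes of its branches -/
def Closed (S : Set (Tr W)) : Prop :=
  ∀ γ δ : W → Bt, top γ ∈ S → top δ ∈ S → γ ≠ δ → ∀ i, node γ i = node δ i → node γ i ∈ S

/-- the index set of the skeleton -/
def Idx (W : Type) [LinearOrder W] : Type := {S : Set (Tr W) // S.Countable ∧ Closed S}

instance : PartialOrder (Idx W) := Subtype.partialOrder _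

theorem le_iff {S S' : Idx W} : S ≤ S' ↔ S.1 ⊆ S'.1 := Iff.rfl

open scoped Classical in
/-- the images of the unit vectors -/
noncomputable def vec (S : Set (Tr W)) (t : Tr W) : L1 (Tr W) :=
  if t ∈ S then e t
  else if h : ∃ p : (W → Bt) × W, top p.1 ∈ S ∧ t = node p.1 p.2 then
    ((h.choose.1 h.choose.2 : Bt) : ℝ) • e (top h.choose.1)
  else 0

theorem vec_mem {S : Set (Tr W)} {t : Tr W} (h : t ∈ S) : vec S t = e t := by
  rw [vec, if_pos h]

theorem vec_node {S : Set (Tr W)} (hS : Closed S) {γ : W → Bt} {i : W} (h : node γ i ∉ S)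
    (hγ : top γ ∈ S) : vec S (node γ i) = ((γ i : Bt) : ℝ) • e (top γ) := by
  classical
  have h1 : ∃ p : (W → Bt) × W, top p.1 ∈ S ∧ node γ i = node p.1 p.2 := ⟨(γ, i), hγ, rfl⟩
  rw [vec, if_neg h, dif_pos h1]
  obtain ⟨h2, h3⟩ := h1.choose_spec
  obtain ⟨h4, h5⟩ := node_eq.1 h3
  have h6 : h1.choose.1 = γ := by
    by_contra hne
    apply h
    refine hS γ _ hγ h2 (fun h' => hne h'.symm) i ?_
    rw [← h4] at h3
    exact h3
  rw [← h4, h6]

theorem vec_zero {S : Set (Tr W)} {t : Tr W} (h : t ∉ S)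
    (h' : ∀ γ i, top γ ∈ S → t ≠ node γ i) : vec S t = 0 := by
  rw [vec, if_neg h, dif_neg]
  rintro ⟨p, h1, h2⟩
  exact h' _ _ h1 h2

theorem vec_top {S : Set (Tr W)} {γ : W → Bt} (h : top γ ∉ S) : vec S (top γ) = 0 :=
  vec_zero h fun _ _ _ h' => node_ne_top h'.symm

theorem vec_cases {S : Set (Tr W)} (hS : Closed S) (t : Tr W) :
    (t ∈ S ∧ vec S t = e t) ∨
    (t ∉ S ∧ ∃ γ i, t = node γ i ∧ top γ ∈ S ∧ vec S t = ((γ i : Bt) : ℝ) • e (top γ)) ∨
    (t ∉ S ∧ (∀ γ i, top γ ∈ S → t ≠ node γ i) ∧ vec S t = 0) := by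
  by_cases h : t ∈ S
  · exact Or.inl ⟨h, vec_mem h⟩
  by_cases h' : ∀ γ i, top γ ∈ S → t ≠ node γ i
  · exact Or.inr (Or.inr ⟨h, h', vec_zero h h'⟩)
  · push Not at h'
    obtain ⟨γ, i, h1, rfl⟩ := h'
    exact Or.inr (Or.inl ⟨h, γ, i, rfl, h1, vec_node hS h h1⟩)

theorem abs_bt (b : Bt) : |(b : ℝ)| ≤ 1 := by
  rw [abs_le]
  exact ⟨by linarith [b.2.1], b.2.2⟩

theorem norm_vec (S : Set (Tr W)) (t : Tr W) : ‖vec S t‖ ≤ 1 := by
  rw [vec]
  split_ifs with h1 h2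
  · rw [norm_e]
  · rw [norm_smul, norm_e, mul_one, Real.norm_eq_abs]
    exact abs_bt _
  · rw [norm_zero]
    exact zero_le_one

/-- the projections -/
noncomputable def Pr (S : Idx W) : L1 (Tr W) →L[ℝ] L1 (Tr W) := op (vec S.1) (norm_vec S.1)

theorem Pr_e (S : Idx W) (t : Tr W) : Pr S (e t) = vec S.1 t := op_e _ _ _

theorem norm_Pr (S : Idx W) : ‖Pr S‖ ≤ 1 := norm_op _ _

theorem Pr_mem {S : Idx W} {t : Tr W} (h : t ∈ S.1) : Pr S (e t) = e t := by
  rw [Pr_e, vec_mem h]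

theorem Pr_comm {S S' : Idx W} (h : S ≤ S') : (Pr S).comp (Pr S') = Pr S := by
  apply ext_e
  intro t
  rw [ContinuousLinearMap.comp_apply]
  rcases vec_cases S'.2.2 t with ⟨-, h2⟩ | ⟨h1, γ, i, rfl, h2, h3⟩ | ⟨h1, h2, h3⟩
  · rw [Pr_e S', h2]
  · rw [Pr_e S', h3, map_smul, Pr_e, Pr_e]
    by_cases h4 : top γ ∈ S.1
    · rw [vec_mem h4, vec_node S.2.2 (fun h' => h1 (h h')) h4]
    · rw [vec_top h4, smul_zero, vec_zero (fun h' => h1 (h h'))]
      intro δ j hδ hne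
      obtain ⟨rfl, -⟩ := node_eq.1 hne
      refine h1 (S'.2.2 γ δ h2 (h hδ) ?_ i hne)
      rintro rfl
      exact h4 hδ
  · rw [Pr_e S', h3, map_zero, Pr_e, vec_zero (fun h' => h1 (h h'))]
    exact fun γ i hγ => h2 γ i (h hγ)

theorem Pr_comm' {S S' : Idx W} (h : S ≤ S') : (Pr S').comp (Pr S) = Pr S := by
  apply ext_e
  intro t
  rw [ContinuousLinearMap.comp_apply, Pr_e S]
  rcases vec_cases S.2.2 t with ⟨h1, h2⟩ | ⟨h1, γ, i, rfl, h2, h3⟩ | ⟨h1, h2, h3⟩
  · rw [h2, Pr_mem (h h1)]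
  · rw [h3, map_smul, Pr_mem (h h2)]
  · rw [h3, map_zero]

theorem mem_range_Pr {S : Idx W} {x : L1 (Tr W)} : x ∈ range (Pr S) ↔ ∀ t ∉ S.1, x t = 0 := by
  constructor
  · rintro ⟨y, rfl⟩ t ht
    have h1 : (coord t).comp (Pr S) = 0 := by
      apply ext_e
      intro s
      rw [ContinuousLinearMap.comp_apply, Pr_e, zero_apply, coord_apply]
      rcases vec_cases S.2.2 s with ⟨h1, h2⟩ | ⟨h1, γ, i, rfl, h2, h3⟩ | ⟨h1, h2, h3⟩
      · rw [h2]
        exact e_ne fun h => ht (h ▸ h1)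
      · rw [h3, lp.coeFn_smul, Pi.smul_apply, e_ne (fun h => ht (by rw [h]; exact h2)), smul_zero]
      · rw [h3]
        rfl
    have h2 := congrArg (fun g : L1 (Tr W) →L[ℝ] ℝ => g y) h1
    simp only [ContinuousLinearMap.comp_apply, zero_apply] at h2
    rwa [coord_apply] at h2
  · intro h
    refine ⟨x, ?_⟩
    have h1 := hasSum_map (Pr S) x
    have h2 := hasSum_e x
    have h3 : (fun s => x s • Pr S (e s)) = fun s => x s • e s := by
      funext s
      by_cases hs : s ∈ S.1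
      · rw [Pr_mem hs]
      · rw [h s hs, zero_smul, zero_smul]
    rw [h3] at h1
    exact h1.unique h2

end Pool.Agent.H110.MB
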