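import Pool.Agent.H110.MB.B5

/-!
# The family of the projections is a projectional skeleton
-/

set_option autoImplicit false

open Set Topology Filter

namespace Pool.Agent.H110.MB

variable {W : Type} [LinearOrder W]

theorem exists_closed (hW : ∀ i : W, (Set.Iic i).Countable) {C : Set (Tr W)} (hC : C.Countable) :
    ∃ S : Idx W, C ⊆ S.1 := by
  classical
  let E : (W → Bt) × (W → Bt) → Set (Tr W) := fun p =>
    if p.1 = p.2 then ∅ else {t | ∃ i, t = node p.1 i ∧ node p.1 i = node p.2 i}
  have hE : ∀ p, (E p).Countable := by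
    rintro ⟨γ, δ⟩
    simp only [E]
    split_ifs with h
    · exact countable_empty
    · obtain ⟨k, hk⟩ : ∃ k, γ k ≠ δ k := by
        by_contra hcon
        push Not at hcon
        exact h (funext hcon)
      refine ((hW k).image (fun i => node γ i)).mono ?_
      rintro t ⟨i, rfl, hi⟩
      refine ⟨i, ?_, rfl⟩
      rw [mem_Iic]
      by_contra hlt
      rw [not_le] at hlt
      exact hk ((node_eq.1 hi).2 k hlt)
  let TC : Set (W → Bt) := {γ | top γ ∈ C}
  have hTC : TC.Countable := by
    have : TC = top ⁻¹' C := rfl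
    rw [this]
    exact hC.preimage_of_injOn fun γ _ δ _ h => top_inj h
  refine ⟨⟨C ∪ ⋃ p ∈ TC ×ˢ TC, E p, ?_, ?_⟩, subset_union_left⟩
  · exact hC.union ((hTC.prod hTC).biUnion fun p _ => hE p)
  · have htop : ∀ γ, top γ ∈ C ∪ ⋃ p ∈ TC ×ˢ TC, E p → γ ∈ TC := by
      rintro γ (h | h)
      · exact h
      · simp only [mem_iUnion] at h
        obtain ⟨p, -, hp⟩ := h
        simp only [E] at hp
        split_ifs at hp with h
        · exact hp.elim
        · obtain ⟨i, hi, -⟩ := hp
          exact (node_ne_top hi.symm).elim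
    intro γ δ hγ hδ hne i hi
    refine Or.inr ?_
    simp only [mem_iUnion]
    refine ⟨(γ, δ), ⟨htop γ hγ, htop δ hδ⟩, ?_⟩
    simp only [E]
    rw [if_neg hne]
    exact ⟨i, rfl, hi⟩

theorem isLUB_union {f : ℕ → Idx W} (hf : Monotone f) :
    ∃ S : Idx W, S.1 = (⋃ n, (f n).1) ∧ IsLUB (range f) S := by
  have hS : (⋃ n, (f n).1).Countable ∧ Closed (⋃ n, (f n).1) := by
    refine ⟨countable_iUnion fun n => (f n).2.1, ?_⟩
    intro γ δ hγ hδ hne i hi
    obtain ⟨m, hm⟩ := mem_iUnion.1 hγ
    obtain ⟨n, hn⟩ := mem_iUnion.1 hδ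
    refine mem_iUnion.2 ⟨max m n, ?_⟩
    exact (f (max m n)).2.2 γ δ (hf (le_max_left m n) hm) (hf (le_max_right m n) hn) hne i hi
  refine ⟨⟨_, hS⟩, rfl, ?_, ?_⟩
  · rintro _ ⟨n, rfl⟩
    exact subset_iUnion (fun n => (f n).1) n
  · intro S' hS'
    exact iUnion_subset fun n => hS' ⟨n, rfl⟩

theorem Pr_separable (S : Idx W) : TopologicalSpace.IsSeparable (range (Pr S)) := by
  have h1 : TopologicalSpace.IsSeparable (closure (Submodule.span ℝ (e '' S.1) : Set (L1 (Tr W)))) :=
    ((S.2.1.image e).isSeparable.span).closure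
  refine h1.mono ?_
  rintro x hx
  rw [mem_range_Pr] at hx
  refine mem_closure_of_tendsto (hasSum_e x) (Eventually.of_forall fun F => ?_)
  refine Submodule.sum_mem _ fun s _ => ?_
  by_cases hs : s ∈ S.1
  · exact Submodule.smul_mem _ _ (Submodule.subset_span ⟨s, hs, rfl⟩)
  · rw [hx s hs, zero_smul]
    exact Submodule.zero_mem _

theorem isSkeleton (hW : ∀ i : W, (Set.Iic i).Countable) : IsSkeleton (Pr : Idx W → _) where
  nonempty := by
    obtain ⟨S, -⟩ := exists_closed hW (C := ∅) countable_empty
    exact ⟨S⟩
  directed := by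
    intro s t
    obtain ⟨u, hu⟩ := exists_closed hW (s.2.1.union t.2.1)
    exact ⟨u, subset_union_left.trans hu, subset_union_right.trans hu⟩
  exists_sup := fun f hf => by
    obtain ⟨S, -, hS⟩ := isLUB_union hf
    exact ⟨S, hS⟩
  proj := fun s x => by
    have := congrArg (fun g : L1 (Tr W) →L[ℝ] L1 (Tr W) => g x) (Pr_comm (le_refl s))
    simpa using this
  separable := Pr_separable
  union := fun x => by
    obtain ⟨S, hS⟩ := exists_closed hW (countable_supp x)
    refine ⟨S, mem_range_Pr.2 fun t ht => ?_⟩
    by_contra h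
    exact ht (hS h)
  comm := fun s t hst x => by
    have h1 := congrArg (fun g : L1 (Tr W) →L[ℝ] L1 (Tr W) => g x) (Pr_comm hst)
    have h2 := congrArg (fun g : L1 (Tr W) →L[ℝ] L1 (Tr W) => g x) (Pr_comm' hst)
    exact ⟨by simpa using h1, by simpa using h2⟩
  sup := fun f hf t ht => by
    classical
    obtain ⟨S, hS, hlub⟩ := isLUB_union hf
    have hst : t = S := ht.unique hlub
    subst hst
    apply Subset.antisymm
    · intro x hx
      rw [mem_range_Pr] at hx
      refine mem_closure_of_tendsto (hasSum_e x) (Eventually.of_forall fun F => ?_)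
      have h1 : ∃ n, ∀ s ∈ F, x s ≠ 0 → s ∈ (f n).1 := by
        induction F using Finset.induction_on with
        | empty => exact ⟨0, fun s hs => by simp at hs⟩
        | insert a F ha ih =>
          obtain ⟨n, hn⟩ := ih
          by_cases hxa : x a = 0
          · refine ⟨n, fun s hs hxs => ?_⟩
            rcases Finset.mem_insert.1 hs with rfl | hs
            · exact (hxs hxa).elim
            · exact hn s hs hxs
          · have h2 : a ∈ t.1 := by
              by_contra h
              exact hxa (hx a h)
            rw [hS] at h2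
            obtain ⟨m, hm⟩ := mem_iUnion.1 h2
            refine ⟨max m n, fun s hs hxs => ?_⟩
            rcases Finset.mem_insert.1 hs with rfl | hs
            · exact hf (le_max_left m n) hm
            · exact hf (le_max_right m n) (hn s hs hxs)
      obtain ⟨n, hn⟩ := h1
      refine mem_iUnion.2 ⟨n, mem_range_Pr.2 fun s hs => ?_⟩
      rw [← coord_apply, map_sum]
      refine Finset.sum_eq_zero fun a ha => ?_
      rw [map_smul, coord_apply]
      by_cases hxa : x a = 0
      · rw [hxa, zero_smul]
      · have h3 : s ≠ a := by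
          rintro rfl
          exact hs (hn _ ha hxa)
        rw [e_ne h3, smul_zero]
    · have h1 : IsClosed (range (Pr t)) := by
        have h2 : range (Pr t) = {x | Pr t x = x} := by
          ext x
          constructor
          · rintro ⟨y, rfl⟩
            have := congrArg (fun g : L1 (Tr W) →L[ℝ] L1 (Tr W) => g y) (Pr_comm (le_refl t))
            simpa using this
          · intro h
            exact ⟨x, h⟩
        rw [h2]
        exact isClosed_eq (Pr t).continuous continuous_id
      refine closure_minimal (iUnion_subset fun n => ?_) h1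
      have hle : f n ≤ t := ht.1 ⟨n, rfl⟩
      intro x hx
      rw [mem_range_Pr] at hx ⊢
      exact fun s hs => hx s fun h => hs (hle h)

end Pool.Agent.H110.MB
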