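import Pool.Agent.H110.MB.B6

/-!
# Every linearly dense set has uncountably many values under some functional induced by the skeleton
-/

set_option autoImplicit false

open Set Topology Filter

namespace Pool.Agent.H110.MB

variable {W : Type} [LinearOrder W]

open scoped Classical in
/-- the values of the functional of the branch `γ` -/
noncomputable def phi (γ : W → Bt) : Tr W → ℝ
  | Sum.inl ⟨j, g⟩ => if ∀ k : Set.Iio j, g k = γ k then (γ j : ℝ) else 0
  | Sum.inr δ => if δ = γ then 1 else 0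

theorem phi_le (γ : W → Bt) (t : Tr W) : ‖phi γ t‖ ≤ 1 := by
  rw [Real.norm_eq_abs]
  rcases t with ⟨j, g⟩ | δ
  · simp only [phi]
    split_ifs
    · exact abs_bt _
    · simp
  · simp only [phi]
    split_ifs <;> simp

/-- the functional of the branch `γ` -/
noncomputable def fu (γ : W → Bt) : L1 (Tr W) →L[ℝ] ℝ := op (phi γ) (phi_le γ)

theorem phi_node (γ : W → Bt) (i : W) : phi γ (node γ i) = γ i := by
  simp [phi, node]

theorem phi_top (γ : W → Bt) : phi γ (top γ) = 1 := by
  simp [phi, top]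

theorem fu_mem (γ : W → Bt) : fu γ ∈ induced (Pr : Idx W → _) := by
  have hS : ({top γ} : Set (Tr W)).Countable ∧ Closed ({top γ} : Set (Tr W)) := by
    refine ⟨countable_singleton _, ?_⟩
    intro δ δ' h h' hne
    have h1 : top δ = top γ := h
    have h2 : top δ' = top γ := h'
    exact (hne ((top_inj h1).trans (top_inj h2).symm)).elim
  obtain ⟨S, hSeq⟩ : ∃ S : Idx W, S.1 = {top γ} := ⟨⟨_, hS⟩, rfl⟩
  refine ⟨S, fu γ, ?_⟩
  symm
  apply ext_e
  intro t
  rw [ContinuousLinearMap.comp_apply, Pr_e, hSeq]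
  rcases vec_cases hS.2 t with ⟨h1, h2⟩ | ⟨h1, δ, i, rfl, h2, h3⟩ | ⟨h1, h2, h3⟩
  · rw [h2]
  · have h4 : δ = γ := top_inj h2
    subst h4
    rw [h3, map_smul, fu, op_e, op_e, phi_top, phi_node, smul_eq_mul, mul_one]
  · rw [h3, map_zero, fu, op_e]
    rcases t with ⟨j, g⟩ | δ
    · simp only [phi]
      rw [if_neg]
      intro hg
      exact h2 γ j rfl (mk_eq_node.2 ⟨rfl, hg⟩)
    · simp only [phi]
      rw [if_neg]
      rintro rfl
      exact h1 rfl

open scoped Classical in
/-- the values of the truncated functional of the branch `γ` -/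
noncomputable def phin (i : W) (γ : W → Bt) : Tr W → ℝ
  | Sum.inl ⟨j, g⟩ => if j ≤ i ∧ ∀ k : Set.Iio j, g k = γ k then (γ j : ℝ) else 0
  | Sum.inr _ => 0

theorem phin_le (i : W) (γ : W → Bt) (t : Tr W) : ‖phin i γ t‖ ≤ 1 := by
  rw [Real.norm_eq_abs]
  rcases t with ⟨j, g⟩ | δ
  · simp only [phin]
    split_ifs
    · exact abs_bt _
    · simp
  · simp [phin]

/-- the truncated functional of the branch `γ` -/
noncomputable def fn (i : W) (γ : W → Bt) : L1 (Tr W) →L[ℝ] ℝ := op (phin i γ) (phin_le i γ)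

theorem phin_congr {i : W} {γ δ : W → Bt} (h : ∀ k ≤ i, γ k = δ k) : phin i γ = phin i δ := by
  funext t
  rcases t with ⟨j, g⟩ | _
  · simp only [phin]
    by_cases hj : j ≤ i
    · have h1 : (∀ k : Set.Iio j, g k = γ k) ↔ (∀ k : Set.Iio j, g k = δ k) := by
        refine forall_congr' fun k => ?_
        rw [h k (k.2.le.trans hj)]
      rw [h j hj]
      by_cases h2 : ∀ k : Set.Iio j, g k = γ k
      · rw [if_pos ⟨hj, h2⟩, if_pos ⟨hj, h1.1 h2⟩]
      · rw [if_neg (fun h' => h2 h'.2), if_neg (fun h' => h2 (h1.2 h'.2))]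
    · rw [if_neg (fun h => hj h.1), if_neg (fun h => hj h.1)]
  · rfl

theorem fn_congr {i : W} {γ δ : W → Bt} (h : ∀ k ≤ i, γ k = δ k) (x : L1 (Tr W)) :
    fn i γ x = fn i δ x := by
  rw [fn, fn, op_apply, op_apply, phin_congr h]

theorem fn_sub {i : W} {γ δ : W → Bt} (h : ∀ k < i, γ k = δ k) (x : L1 (Tr W)) :
    fn i γ x - fn i δ x = ((γ i : ℝ) - δ i) * x (node γ i) := by
  have h1 : fn i γ - fn i δ = ((γ i : ℝ) - δ i) • coord (node γ i) := by
    apply ext_e
    intro t
    rw [sub_apply, fn, fn, op_e, op_e, smul_apply,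
      coord_apply, smul_eq_mul]
    rcases t with ⟨j, g⟩ | ε
    · simp only [phin]
      rcases lt_trichotomy j i with hj | rfl | hj
      · have h2 : (∀ k : Set.Iio j, g k = γ k) ↔ (∀ k : Set.Iio j, g k = δ k) := by
          refine forall_congr' fun k => ?_
          rw [h k (lt_trans k.2 hj)]
        have h3 : node γ i ≠ Sum.inl ⟨j, g⟩ := fun h' => hj.ne (mk_eq_node.1 h'.symm).1
        rw [e_ne h3, mul_zero, h j hj]
        by_cases h4 : ∀ k : Set.Iio j, g k = γ k
        · rw [if_pos ⟨hj.le, h4⟩, if_pos ⟨hj.le, h2.1 h4⟩, sub_self]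
        · rw [if_neg (fun h' => h4 h'.2), if_neg (fun h' => h4 (h2.2 h'.2)), sub_self]
      · have h2 : (∀ k : Set.Iio j, g k = γ k) ↔ (∀ k : Set.Iio j, g k = δ k) := by
          refine forall_congr' fun k => ?_
          rw [h k k.2]
        by_cases h3 : ∀ k : Set.Iio j, g k = γ k
        · rw [if_pos ⟨le_refl _, h3⟩, if_pos ⟨le_refl _, h2.1 h3⟩]
          have h4 : (Sum.inl ⟨j, g⟩ : Tr W) = node γ j := mk_eq_node.2 ⟨rfl, h3⟩
          rw [h4, e_self, mul_one]
        · rw [if_neg (fun h' => h3 h'.2), if_neg (fun h' => h3 (h2.2 h'.2))]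
          have h4 : node γ j ≠ Sum.inl ⟨j, g⟩ := fun h' => h3 (mk_eq_node.1 h'.symm).2
          rw [e_ne h4, mul_zero, sub_self]
      · rw [if_neg (fun h' => not_le.2 hj h'.1), if_neg (fun h' => not_le.2 hj h'.1)]
        have h3 : node γ i ≠ Sum.inl ⟨j, g⟩ := fun h' => hj.ne' (mk_eq_node.1 h'.symm).1
        rw [e_ne h3, mul_zero, sub_self]
    · have h3 : node γ i ≠ Sum.inr ε := node_ne_top
      rw [e_ne h3]
      simp [phin]
  have h2 := congrArg (fun g : L1 (Tr W) →L[ℝ] ℝ => g x) h1
  simpa [coord_apply] using h2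

open scoped Classical in
/-- the digit of a node at `i` -/
noncomputable def dig (i : W) : Tr W → Option Bt
  | Sum.inl ⟨k, g⟩ => if h : i < k then some (g ⟨i, h⟩) else none
  | Sum.inr δ => some (δ i)

theorem fu_eq_fn {i : W} {γ : W → Bt} {x : L1 (Tr W)}
    (h : ∀ t, x t ≠ 0 → dig i t ≠ some (γ i)) : fu γ x = fn i γ x := by
  rw [fu, fn, op_apply, op_apply]
  congr 1
  funext t
  by_cases hx : x t = 0
  · rw [hx, zero_smul, zero_smul]
  have h1 := h t hx
  congr 1
  rcases t with ⟨j, g⟩ | δ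
  · simp only [phi, phin]
    by_cases hg : ∀ k : Set.Iio j, g k = γ k
    · rw [if_pos hg]
      by_cases hj : j ≤ i
      · rw [if_pos ⟨hj, hg⟩]
      · rw [not_le] at hj
        exfalso
        apply h1
        simp only [dig]
        rw [dif_pos hj, hg ⟨i, hj⟩]
    · rw [if_neg hg, if_neg (fun h' => hg h'.2)]
  · simp only [phi, phin]
    rw [if_neg]
    rintro rfl
    exact h1 rfl

open scoped Classical in
/-- the extension of a sequence of length `i` by a constant value -/
noncomputable def ex (i : W) (g : Set.Iio i → Bt) (b : Bt) : W → Bt :=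
  fun j => if h : j < i then g ⟨j, h⟩ else b

theorem ex_lt {i : W} {g : Set.Iio i → Bt} {b : Bt} {j : W} (h : j < i) : ex i g b j = g ⟨j, h⟩ := by
  rw [ex, dif_pos h]

theorem ex_self {i : W} {g : Set.Iio i → Bt} {b : Bt} : ex i g b i = b := by
  rw [ex, dif_neg (lt_irrefl _)]

theorem bt_uncountable : ¬ (univ : Set Bt).Countable := by
  intro h
  have h1 : (Set.Icc (0 : ℝ) 1).Countable := by
    have := h.image (Subtype.val : Bt → ℝ)
    rwa [image_univ, Subtype.range_coe] at this
  exact (Cardinal.Real.Icc_countable_iff.not.2 (by norm_num)) h1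

/-- the main combinatorial fact -/
theorem exists_branch [WellFoundedLT W] (hW : ∀ i : W, (Set.Iic i).Countable)
    (hunc : ¬ (univ : Set W).Countable) (h : (Σ i : W, (Set.Iio i → Bt)) → L1 (Tr W))
    (hh : ∀ q, h q (Sum.inl q) ≠ 0) :
    ∃ γ : W → Bt, ¬ (range fun q => fu γ (h q)).Countable := by
  classical
  have hpick : ∀ (i : W) (g : Set.Iio i → Bt), ∃ b : Bt,
      (∀ t, h ⟨i, g⟩ t ≠ 0 → dig i t ≠ some b) ∧
      ∀ (j : W) (hj : j < i), fn i (ex i g b) (h ⟨i, g⟩) ≠
        fn j (ex i g b) (h ⟨j, fun k => g ⟨k, lt_trans k.2 hj⟩⟩) := by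
    intro i g
    by_contra hcon
    push Not at hcon
    have b0 : Bt := ⟨0, by simp⟩
    -- the two bad sets
    let A1 : Set Bt := {b | ∃ t, h ⟨i, g⟩ t ≠ 0 ∧ dig i t = some b}
    let V : Set ℝ := range fun j : Set.Iio i =>
      fn (j : W) (ex i g b0) (h ⟨(j : W), fun k => g ⟨k, lt_trans k.2 j.2⟩⟩)
    let A2 : Set Bt := (fun b => fn i (ex i g b) (h ⟨i, g⟩)) ⁻¹' V
    have hA1 : A1.Countable := by
      have h1 : A1 ⊆ (some : Bt → Option Bt) ⁻¹' (dig i '' {t | h ⟨i, g⟩ t ≠ 0}) := by
        rintro b ⟨t, ht, hb⟩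
        exact ⟨t, ht, hb⟩
      exact (((countable_supp _).image _).preimage_of_injOn
        (Option.some_injective _).injOn).mono h1
    have hV : V.Countable := by
      have : Countable (Set.Iio i) := ((hW i).mono Iio_subset_Iic_self).to_subtype
      exact countable_range _
    have hinj : Function.Injective (fun b => fn i (ex i g b) (h ⟨i, g⟩)) := by
      intro b b' hb
      have h1 := fn_sub (i := i) (γ := ex i g b) (δ := ex i g b') (fun k hk => by
        rw [ex_lt hk, ex_lt hk]) (h ⟨i, g⟩)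
      simp only at hb
      rw [hb, sub_self, ex_self, ex_self] at h1
      have h2 : node (ex i g b) i = Sum.inl ⟨i, g⟩ := by
        symm
        rw [mk_eq_node]
        exact ⟨rfl, fun k => (ex_lt k.2).symm⟩
      rw [h2] at h1
      rcases mul_eq_zero.1 h1.symm with h3 | h3
      · exact Subtype.ext (sub_eq_zero.1 h3)
      · exact (hh _ h3).elim
    have hA2 : A2.Countable := hV.preimage_of_injOn hinj.injOn
    apply bt_uncountable
    refine (hA1.union hA2).mono fun b _ => ?_
    by_cases hb : b ∈ A1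
    · exact Or.inl hb
    · refine Or.inr ?_
      obtain ⟨j, hj, heq⟩ := hcon b (fun t ht hd => hb ⟨t, ht, hd⟩)
      refine ⟨⟨j, hj⟩, ?_⟩
      simp only
      rw [heq]
      apply fn_congr
      intro k hk
      rw [ex_lt (lt_of_le_of_lt hk hj), ex_lt (lt_of_le_of_lt hk hj)]
  choose pick hp1 hp2 using hpick
  let γ : W → Bt := (wellFounded_lt (α := W)).fix (C := fun _ => Bt)
    (fun i ih => pick i (fun j => ih j j.2))
  have hγ : ∀ i, γ i = pick i (fun j => γ j) := fun i => WellFounded.fix_eq _ _ _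
  let q : W → (Σ i : W, (Set.Iio i → Bt)) := fun i => ⟨i, fun j => γ j⟩
  have hex : ∀ i k, k ≤ i → ex i (fun j : Set.Iio i => γ j) (γ i) k = γ k := by
    intro i k hk
    rcases hk.lt_or_eq with hk | rfl
    · rw [ex_lt hk]
    · rw [ex_self]
  have h1 : ∀ i, fu γ (h (q i)) = fn i γ (h (q i)) := by
    intro i
    apply fu_eq_fn
    rw [hγ i]
    exact hp1 i _
  refine ⟨γ, fun hcount => hunc ?_⟩
  have hinj : Function.Injective fun i => fu γ (h (q i)) := by
    intro i j hij
    simp only at hij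
    by_contra hne
    have main : ∀ i j : W, j < i → fu γ (h (q i)) ≠ fu γ (h (q j)) := by
      intro i j hj
      rw [h1, h1]
      have h2 := hp2 i (fun j => γ j) j hj
      rw [← hγ i] at h2
      rw [fn_congr (hex i)] at h2
      rw [fn_congr (i := j) (fun k hk => hex i k (hk.trans hj.le))] at h2
      exact h2
    rcases lt_or_gt_of_ne hne with hlt | hlt
    · exact main j i hlt hij.symm
    · exact main i j hlt hij
  have h3 : (range fun i => fu γ (h (q i))).Countable := by
    refine hcount.mono ?_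
    rintro _ ⟨i, rfl⟩
    exact ⟨q i, rfl⟩
  have h4 : (univ : Set W) = (fun i => fu γ (h (q i))) ⁻¹' (range fun i => fu γ (h (q i))) := by
    ext i
    simp
  rw [h4]
  exact h3.preimage_of_injOn hinj.injOn

/-- if `H` is linearly dense, then some functional induced by the skeleton has uncountably many
values on `H` -/
theorem exists_uncountable [WellFoundedLT W] (hW : ∀ i : W, (Set.Iic i).Countable)
    (hunc : ¬ (univ : Set W).Countable) {H : Set (L1 (Tr W))}
    (hH : closure (Submodule.span ℝ H : Set (L1 (Tr W))) = univ) :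
    ∃ γ : W → Bt, ¬ (fu γ '' H).Countable := by
  have h1 : ∀ q : (Σ i : W, (Set.Iio i → Bt)), ∃ x ∈ H, x (Sum.inl q : Tr W) ≠ 0 := by
    intro q
    by_contra hcon
    push Not at hcon
    have h2 : (Submodule.span ℝ H : Set (L1 (Tr W))) ⊆
        {x | coord (Sum.inl q : Tr W) x = 0} := by
      intro x hx
      have h3 : Submodule.span ℝ H ≤ LinearMap.ker (coord (Sum.inl q : Tr W)).toLinearMap := by
        rw [Submodule.span_le]
        intro x hx
        have : coord (Sum.inl q : Tr W) x = 0 := by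
          rw [coord_apply]
          exact hcon x hx
        exact this
      exact h3 hx
    have h3 : IsClosed {x : L1 (Tr W) | coord (Sum.inl q : Tr W) x = 0} :=
      isClosed_eq (coord (Sum.inl q : Tr W)).continuous continuous_const
    have h4 := closure_minimal h2 h3
    rw [hH] at h4
    have h5 : coord (Sum.inl q : Tr W) (e (Sum.inl q)) = 0 := h4 (mem_univ _)
    rw [coord_apply, e_self] at h5
    exact one_ne_zero h5
  choose h hh1 hh2 using h1
  obtain ⟨γ, hγ⟩ := exists_branch hW hunc h hh2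
  refine ⟨γ, fun hc => hγ (hc.mono ?_)⟩
  rintro _ ⟨q, rfl⟩
  exact ⟨h q, hh1 q, rfl⟩

end Pool.Agent.H110.MB
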