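import Mathlib

/-!
# Projectional skeletons, Markushevich bases, monotonically Sokolov spaces
-/

set_option autoImplicit false

open Set Topology Filter

namespace Pool.Agent.H110.MB

variable {X : Type} [NormedAddCommGroup X] [NormedSpace ℝ X]

/-- `(P_s)` is a projectional skeleton on `X`. -/
structure IsSkeleton {Γ : Type} [PartialOrder Γ] (P : Γ → X →L[ℝ] X) : Prop where
  nonempty : Nonempty Γ
  directed : ∀ s t : Γ, ∃ u, s ≤ u ∧ t ≤ u
  exists_sup : ∀ f : ℕ → Γ, Monotone f → ∃ t, IsLUB (range f) t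
  proj : ∀ s x, P s (P s x) = P s x
  separable : ∀ s, TopologicalSpace.IsSeparable (range (P s))
  union : ∀ x, ∃ s, x ∈ range (P s)
  comm : ∀ s t, s ≤ t → ∀ x, P s (P t x) = P s x ∧ P t (P s x) = P s x
  sup : ∀ f : ℕ → Γ, Monotone f → ∀ t, IsLUB (range f) t →
    range (P t) = closure (⋃ n, range (P (f n)))

/-- `D`, the subspace of `X*` induced by the skeleton: the union of the ranges of the adjoints. -/
def induced {Γ : Type} (P : Γ → X →L[ℝ] X) : Set (X →L[ℝ] ℝ) :=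
  {f | ∃ (s : Γ) (g : X →L[ℝ] ℝ), f = g.comp (P s)}

/-- `σ(X, D)`, the weak topology on `X` generated by `D`. -/
def sigma (D : Set (X →L[ℝ] ℝ)) : TopologicalSpace X :=
  TopologicalSpace.induced (fun x (f : D) => (f : X →L[ℝ] ℝ) x) Pi.topologicalSpace

/-- `(x_α, x*_α)` is a Markushevich basis of `X`. -/
structure IsMarkushevichBasis {Λ : Type} (x : Λ → X) (xs : Λ → X →L[ℝ] ℝ) : Prop where
  biorth_self : ∀ α, xs α (x α) = 1
  biorth_ne : ∀ α β, α ≠ β → xs α (x β) = 0
  dense : closure (Submodule.span ℝ (range x) : Set X) = univ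
  separating : ∀ v : X, (∀ α, xs α v = 0) → v = 0

/-- `N` is an outer network for `Y ⊆ T` in the topology `τ`. -/
def IsOuterNetwork {T : Type} (τ : TopologicalSpace T) (N : Set (Set T)) (Y : Set T) : Prop :=
  ∀ y ∈ Y, ∀ U : Set T, IsOpen[τ] U → y ∈ U → ∃ S ∈ N, y ∈ S ∧ S ⊆ U

/-- a countable family of closed subsets -/
def IsCtblClosed {T : Type} (τ : TopologicalSpace T) (A : Set (Set T)) : Prop :=
  A.Countable ∧ ∀ F ∈ A, IsClosed[τ] F

/-- `(T, τ)` is monotonically Sokolov. -/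
def MonotonicallySokolov {T : Type} (τ : TopologicalSpace T) : Prop :=
  ∃ (r : Set (Set T) → T → T) (N : Set (Set T) → Set (Set T)),
    (∀ A, IsCtblClosed τ A → Continuous[τ, τ] (r A) ∧ (∀ x, r A (r A x) = r A x) ∧
      (N A).Countable ∧ IsOuterNetwork τ (N A) (range (r A)) ∧ ∀ F ∈ A, r A '' F ⊆ F) ∧
    (∀ A B, IsCtblClosed τ A → IsCtblClosed τ B → A ⊆ B → N A ⊆ N B) ∧
    (∀ A : ℕ → Set (Set T), (∀ n, IsCtblClosed τ (A n)) → Monotone A →
      N (⋃ n, A n) = ⋃ n, N (A n))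

end Pool.Agent.H110.MB
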